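import Pool.Agent.Results.MP_464c42_nt.OrbifoldLines
import Pool.Agent.Results.MP_f5a5f7_nt.ExceptionsAtEveryLevel
import Pool.Agent.Results.MP_f5a5f7_nt.SharpCount

/-!
# The integral points of ALL C-pairs on the line with support `{0, 1, ∞}`, by height and by radical

`K` is a number field of degree `d`, `S` a finite set of primes of `K`. We consider all the C-pairs
`(ℙ¹, (1 - 1 / m_0) (0) + (1 - 1 / m_1) (1) + (1 - 1 / m_2) (∞))`, `m_i ∈ {1, 2, …} ∪ {∞}`, over `K`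
AT ONCE: the union of the sets of their `S`-integral points, where `m_0, m_1, m_2` vary. We bound
the number of these points by their height, and by their radical.
-/

set_option autoImplicit false

namespace Pool.Agent.Results.MP_464c42_nt.AllPairsOnTheLine

open NumberField IsDedekindDomain

open Pool.Agent.Results.MP_464c42_nt.OrbifoldLines (recip IsIntegral)

section defs

variable {K : Type} [Field K] [NumberField K]

/-- the absolute logarithmic Weil height `h(x)` -/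
noncomputable def height (x : K) : ℝ :=
  (1 / (Module.finrank ℚ K : ℝ)) *
    ((∑ w : InfinitePlace K, (w.mult : ℝ) * Real.log (max 1 (w x))) +
      ∑ᶠ v : HeightOneSpectrum (𝓞 K), Real.log (max 1 (FinitePlace.mk v x)))

/-- the sum of `log N(v) / d` over the primes `v` at which `x` has a positive valuation -/
noncomputable def cond (x : K) : ℝ :=
  (1 / (Module.finrank ℚ K : ℝ)) *
    (∑ᶠ v : HeightOneSpectrum (𝓞 K),
      (if FinitePlace.mk v x < 1 then Real.log (Ideal.absNorm v.asIdeal : ℝ) else 0))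

/-- the radical of `x`: the sum of `log N(v) / d` over the primes `v` at which `x` reduces to
`0`, `∞` or `1` -/
noncomputable def rad (x : K) : ℝ := cond x + cond x⁻¹ + cond (x - 1)

end defs

/-- the `x ∈ K` which are `S`-integral points of SOME C-pair with `1 / m_0 + 1 / m_1 + 1 / m_2 ≤ σ` -/
def Campana (K : Type) [Field K] [NumberField K] (S : Finset (HeightOneSpectrum (𝓞 K)))
    (σ : ℝ) : Set K :=
  {x | ∃ m : Fin 3 → ℕ∞, (∀ i, 1 ≤ m i) ∧ ∑ i, recip (m i) ≤ σ ∧ IsIntegral S m x}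

/-- the `x ∈ K` which are `S`-integral points of SOME C-pair of general type, that is with
`1 / m_0 + 1 / m_1 + 1 / m_2 < 1` -/
def GeneralType (K : Type) [Field K] [NumberField K] (S : Finset (HeightOneSpectrum (𝓞 K))) :
    Set K :=
  {x | ∃ m : Fin 3 → ℕ∞, (∀ i, 1 ≤ m i) ∧ ∑ i, recip (m i) < 1 ∧ IsIntegral S m x}

/-- the `x ∈ K` which are `S`-integral points of SOME C-pair with `(m_0, m_1, m_2) ≠ (1, 1, 1)` -/
def Nontrivial (K : Type) [Field K] [NumberField K] (S : Finset (HeightOneSpectrum (𝓞 K))) :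
    Set K :=
  {x | ∃ m : Fin 3 → ℕ∞, (∀ i, 1 ≤ m i) ∧ (∃ i, 2 ≤ m i) ∧ IsIntegral S m x}

/-- the exponent, a continuous piecewise linear function on `(0, 3]` -/
noncomputable def F (t : ℝ) : ℝ :=
  if t ≤ 7 / 15 then 4 * t / 7
  else if t ≤ 1 then (19 * t + 1) / 37
  else if t ≤ 9 / 7 then 5 * (9 * t - 1) / 74
  else if t ≤ 3 / 2 then 5 * t / 9
  else if t ≤ 5 / 3 then t - 2 / 3
  else if t ≤ 2 then 1
  else t - 1

/-! ## The values of `1 / m` -/

lemma recip_cases {m : ℕ∞} (hm : 1 ≤ m) :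
    recip m = 1 ∨ recip m = 1 / 2 ∨ recip m = 1 / 3 ∨ recip m = 1 / 4 ∨ recip m = 1 / 5 ∨
      recip m = 1 / 6 ∨ (0 ≤ recip m ∧ recip m ≤ 1 / 7) := by
  rcases eq_or_ne m ⊤ with h | h
  · right; right; right; right; right; right
    rw [h]
    simp [recip]
  · obtain ⟨e, he⟩ := ENat.ne_top_iff_exists.mp h
    have he1 : 1 ≤ e := by
      rw [← he] at hm
      exact_mod_cast hm
    have h3 : recip m = (e : ℝ)⁻¹ := by rw [← he]; simp [recip]
    rw [h3]
    rcases Nat.lt_or_ge e 7 with h7 | h7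
    · interval_cases e <;> norm_num
    · right; right; right; right; right; right
      have h8 : (7 : ℝ) ≤ e := by exact_mod_cast h7
      refine ⟨by positivity, ?_⟩
      rw [one_div]
      exact inv_anti₀ (by norm_num) h8

lemma recip_nonneg (m : ℕ∞) : 0 ≤ recip m := inv_nonneg.mpr (Nat.cast_nonneg _)

lemma recip_le_one {m : ℕ∞} (hm : 1 ≤ m) : recip m ≤ 1 := by
  rcases recip_cases hm with h | h | h | h | h | h | ⟨-, h⟩ <;> linarith

lemma recip_le_half {m : ℕ∞} (hm : 2 ≤ m) : recip m ≤ 1 / 2 := by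
  rcases eq_or_ne m ⊤ with h | h
  · rw [h]
    simp [recip]
  · obtain ⟨e, he⟩ := ENat.ne_top_iff_exists.mp h
    have he1 : 2 ≤ e := by
      rw [← he] at hm
      exact_mod_cast hm
    have h3 : recip m = (e : ℝ)⁻¹ := by rw [← he]; simp [recip]
    rw [h3, one_div]
    exact inv_anti₀ (by norm_num) (by exact_mod_cast he1)

/-- a C-pair of general type has `Σ 1 / m_i ≤ 41 / 42` -/
lemma hurwitz {m : Fin 3 → ℕ∞} (hm : ∀ i, 1 ≤ m i) (h : ∑ i, recip (m i) < 1) :
    ∑ i, recip (m i) ≤ 41 / 42 := by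
  rw [Fin.sum_univ_three] at h ⊢
  rcases recip_cases (hm 0) with h0 | h0 | h0 | h0 | h0 | h0 | ⟨h0, h0'⟩ <;>
  rcases recip_cases (hm 1) with h1 | h1 | h1 | h1 | h1 | h1 | ⟨h1, h1'⟩ <;>
  rcases recip_cases (hm 2) with h2 | h2 | h2 | h2 | h2 | h2 | ⟨h2, h2'⟩ <;>
  linarith

lemma sum_le {m : Fin 3 → ℕ∞} (hm : ∀ i, 1 ≤ m i) (h : ∃ i, 2 ≤ m i) :
    ∑ i, recip (m i) ≤ 5 / 2 := by
  rw [Fin.sum_univ_three]
  obtain ⟨i, hi⟩ := h
  have a0 := recip_le_one (hm 0)
  have a1 := recip_le_one (hm 1)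
  have a2 := recip_le_one (hm 2)
  have a3 := recip_le_half hi
  fin_cases i <;> simp only [Fin.zero_eta, Fin.mk_one, Fin.reduceFinMk] at a3 <;> linarith

/-! ## The radical of a Campana point -/

section pts

variable {K : Type} [Field K] [NumberField K]

lemma height_nonneg (x : K) : 0 ≤ height x := by
  have hd : 0 < (Module.finrank ℚ K : ℝ) := by exact_mod_cast Module.finrank_pos
  have h5 := Pool.Agent.Results.MP_464c42_nt.OrbifoldLines.height_eq x
  have h6 := Real.log_nonneg (Height.one_le_mulHeight₁ x)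
  rw [h5] at h6
  exact nonneg_of_mul_nonneg_right h6 hd

lemma rad_le (S : Finset (HeightOneSpectrum (𝓞 K))) :
    ∃ M : ℝ, 0 ≤ M ∧ ∀ σ : ℝ, 0 ≤ σ → σ ≤ 3 → ∀ x ∈ Campana K S σ, x ≠ 0 ∧ x ≠ 1 ∧
      rad x ≤ σ * height x + M := by
  classical
  set d : ℝ := (Module.finrank ℚ K : ℝ) with hdd
  have hd : 0 < d := by rw [hdd]; exact_mod_cast Module.finrank_pos
  set N : ℝ := Pool.Agent.W223.CV.cc (L := K) ∅
    (Pool.Agent.Results.MP_464c42_nt.OrbifoldLines.Over
      (S.image fun v => Ideal.absNorm v.asIdeal)) with hN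
  have hlog2 : 0 ≤ Real.log 2 := Real.log_nonneg (by norm_num)
  refine ⟨|3 * N / d| + 3 * Real.log 2, by positivity, ?_⟩
  rintro σ hσ0 hσ3 x ⟨m, hm, hσ, hx⟩
  refine ⟨hx.1, hx.2.1, ?_⟩
  have a0 := Pool.Agent.Results.MP_464c42_nt.OrbifoldLines.cond_le_height S m hm x hx 0
  have a1 := Pool.Agent.Results.MP_464c42_nt.OrbifoldLines.cond_le_height S m hm x hx 1
  have a2 := Pool.Agent.Results.MP_464c42_nt.OrbifoldLines.cond_le_height S m hm x hx 2
  rw [← hN, ← hdd] at a0 a1 a2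
  simp only [Matrix.cons_val_zero, Matrix.cons_val_one, Matrix.cons_val] at a0 a1 a2
  have e0 : Pool.Agent.Results.MP_f5a5f7_nt.FewExceptions.cond x = cond x := rfl
  have e1 : Pool.Agent.Results.MP_f5a5f7_nt.FewExceptions.cond (x - 1) = cond (x - 1) := rfl
  have e2 : Pool.Agent.Results.MP_f5a5f7_nt.FewExceptions.cond x⁻¹ = cond x⁻¹ := rfl
  have e3 : Pool.Agent.Results.MP_464c42_nt.OrbifoldLines.height x = height x := rfl
  rw [e0, e3] at a0
  rw [e1, e3] at a1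
  rw [e2, e3] at a2
  have hh := height_nonneg x
  rw [Fin.sum_univ_three] at hσ
  have hk : 0 ≤ d * (height x + Real.log 2) := by positivity
  have h1 := mul_le_mul_of_nonneg_right hσ hk
  have h2 : d * rad x ≤ 3 * N + σ * (d * (height x + Real.log 2)) := by
    unfold rad
    linarith
  have h3 : rad x ≤ 3 * N / d + σ * (height x + Real.log 2) := by
    have h7 : 3 * N / d + σ * (height x + Real.log 2) =
        (3 * N + σ * (d * (height x + Real.log 2))) / d := by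
      field_simp
    rw [h7, le_div_iff₀ hd, mul_comm]
    exact h2
  have h4 := le_abs_self (3 * N / d)
  have h5 := mul_le_mul_of_nonneg_right hσ3 hlog2
  linarith

/-- the numbers of bounded height whose radical is at most `h / κ + const` -/
lemma level (K : Type) [Field K] [NumberField K] (κ c δ : ℝ) (hκ : 1 / 3 ≤ κ) (hδ : 0 < δ) :
    ∃ C : ℝ, 0 ≤ C ∧ ∀ B : ℝ, 1 ≤ B →
      {x : K | x ≠ 0 ∧ x ≠ 1 ∧ Real.exp (height x) ≤ B ∧ κ * rad x ≤ height x + c}.Finite ∧
      ({x : K | x ≠ 0 ∧ x ≠ 1 ∧ Real.exp (height x) ≤ B ∧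
        κ * rad x ≤ height x + c}.ncard : ℝ) ≤
        C * B ^ ((Module.finrank ℚ K : ℝ) * F (1 / κ) + δ) := by
  obtain ⟨C, hC⟩ :=
    (Pool.Agent.Results.MP_f5a5f7_nt.ExceptionsAtEveryLevel.result K κ c hκ).1 δ hδ
  refine ⟨max C 0, le_max_right _ _, fun B hB => ?_⟩
  obtain ⟨h1, h2⟩ := hC B hB
  refine ⟨h1, h2.trans (mul_le_mul_of_nonneg_right (le_max_left _ _) ?_)⟩
  exact Real.rpow_nonneg (by linarith) _

/-! ## Counting by the height -/

theorem by_height (K : Type) [Field K] [NumberField K] (S : Finset (HeightOneSpectrum (𝓞 K)))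
    (σ ε : ℝ) (hσ0 : 0 < σ) (hσ3 : σ ≤ 3) (hε : 0 < ε) :
    ∃ C : ℝ, ∀ B : ℝ, 1 ≤ B →
      {x | x ∈ Campana K S σ ∧ Real.exp (height x) ≤ B}.Finite ∧
      ({x | x ∈ Campana K S σ ∧ Real.exp (height x) ≤ B}.ncard : ℝ) ≤
        C * B ^ ((Module.finrank ℚ K : ℝ) * F σ + ε) := by
  obtain ⟨M, hM0, hM⟩ := rad_le S
  have hκ : 1 / 3 ≤ 1 / σ := one_div_le_one_div_of_le hσ0 hσ3
  obtain ⟨C, hC0, hC⟩ := level K (1 / σ) (M / σ) ε hκ hε
  refine ⟨C, fun B hB => ?_⟩
  obtain ⟨h1, h2⟩ := hC B hB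
  rw [one_div_one_div] at h2
  have hsub : {x | x ∈ Campana K S σ ∧ Real.exp (height x) ≤ B} ⊆
      {x : K | x ≠ 0 ∧ x ≠ 1 ∧ Real.exp (height x) ≤ B ∧
        1 / σ * rad x ≤ height x + M / σ} := by
    rintro x ⟨hx, hxB⟩
    obtain ⟨a0, a1, a2⟩ := hM σ hσ0.le hσ3 x hx
    refine ⟨a0, a1, hxB, ?_⟩
    have h3 : height x + M / σ = 1 / σ * (σ * height x + M) := by field_simp
    rw [h3]
    exact mul_le_mul_of_nonneg_left a2 (by positivity)
  refine ⟨h1.subset hsub, le_trans ?_ h2⟩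
  exact_mod_cast Set.ncard_le_ncard hsub h1

/-! ## Counting by the radical, with a bound for the height -/

lemma F_le_two (t : ℝ) (ht : t ≤ 3) : F t ≤ 2 := by
  unfold F
  split_ifs <;> linarith

lemma F_nonneg (t : ℝ) (ht : 0 ≤ t) : 0 ≤ F t := by
  unfold F
  split_ifs <;> linarith

lemma part (K : Type) [Field K] [NumberField K] (M c A E ε : ℝ) (hM : 1 / 3 ≤ M) (hε : 0 < ε)
    (hE : ∀ a : ℝ, M ≤ a → a * F (1 / a) ≤ E) :
    ∃ C : ℝ, ∀ X : ℝ, 1 ≤ X →
      {x : K | x ≠ 0 ∧ x ≠ 1 ∧ Real.exp (rad x) ≤ X ∧ M * rad x ≤ height x + c ∧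
        height x ≤ A * Real.log X}.Finite ∧
      ({x : K | x ≠ 0 ∧ x ≠ 1 ∧ Real.exp (rad x) ≤ X ∧ M * rad x ≤ height x + c ∧
        height x ≤ A * Real.log X}.ncard : ℝ) ≤
        C * X ^ ((Module.finrank ℚ K : ℝ) * E + ε) := by
  classical
  set d : ℝ := (Module.finrank ℚ K : ℝ) with hdd
  have hd : 0 < d := by rw [hdd]; exact_mod_cast Module.finrank_pos
  have hM0 : 0 < M := by linarith
  set A' : ℝ := max A M with hA'
  have hA'0 : 0 < A' := lt_max_of_lt_right hM0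
  -- the mesh
  obtain ⟨n, hn⟩ := exists_nat_gt ((A' - M) * (4 * d / ε))
  obtain ⟨η, hη⟩ : ∃ η : ℝ, η = (A' - M) / (n + 1) := ⟨_, rfl⟩
  have hn0 : (0 : ℝ) < (n : ℝ) + 1 := by positivity
  have hAM : 0 ≤ A' - M := sub_nonneg.2 (le_max_right _ _)
  have hη0 : 0 ≤ η := by rw [hη]; positivity
  have hη1 : η * (4 * d) ≤ ε := by
    rw [hη, div_mul_eq_mul_div, div_le_iff₀ hn0]
    have h1 : (A' - M) * (4 * d / ε) < (n : ℝ) + 1 := by linarith
    have h2 := mul_lt_mul_of_pos_right h1 hε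
    have h3 : (A' - M) * (4 * d / ε) * ε = (A' - M) * (4 * d) := by field_simp
    rw [h3] at h2
    linarith
  obtain ⟨δ, hδ⟩ : ∃ δ : ℝ, δ = ε / (2 * A') := ⟨_, rfl⟩
  have hδ0 : 0 < δ := by rw [hδ]; positivity
  have hδ1 : A' * δ = ε / 2 := by rw [hδ]; field_simp
  have ha : ∀ i : ℕ, M ≤ M + i * η := fun i => by
    have : 0 ≤ (i : ℝ) * η := by positivity
    linarith
  have ha3 : ∀ i : ℕ, 1 / 3 ≤ M + i * η := fun i => hM.trans (ha i)
  choose Cf hCf0 hCf using fun i : ℕ => level K (M + i * η) 0 δ (ha3 i) hδ0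
  obtain ⟨C0, hC00, hC0⟩ := level K M c δ hM hδ0
  refine ⟨C0 + ∑ i ∈ Finset.range (n + 1), Cf i, fun X hX => ?_⟩
  have hX0 : 0 < X := by linarith
  have hL : 0 ≤ Real.log X := Real.log_nonneg hX
  -- the sets
  set U0 : Set K := {x : K | x ≠ 0 ∧ x ≠ 1 ∧ Real.exp (height x) ≤ X ^ M ∧
    M * rad x ≤ height x + c} with hU0
  set U : ℕ → Set K := fun i => {x : K | x ≠ 0 ∧ x ≠ 1 ∧
    Real.exp (height x) ≤ X ^ (M + (i + 1) * η) ∧ (M + i * η) * rad x ≤ height x + 0} with hU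
  have hp : ∀ t : ℝ, 0 ≤ t → 1 ≤ X ^ t := fun t ht => Real.one_le_rpow hX ht
  have h0 := hC0 (X ^ M) (hp M hM0.le)
  have hi : ∀ i : ℕ, (U i).Finite ∧ ((U i).ncard : ℝ) ≤
      Cf i * (X ^ (M + (i + 1) * η)) ^ (d * F (1 / (M + i * η)) + δ) := fun i =>
    hCf i (X ^ (M + (i + 1) * η)) (hp _ (by positivity))
  have hexp : ∀ t : ℝ, X ^ t = Real.exp (t * Real.log X) := fun t => by
    rw [Real.rpow_def_of_pos hX0, mul_comm]
  have hsub : {x : K | x ≠ 0 ∧ x ≠ 1 ∧ Real.exp (rad x) ≤ X ∧ M * rad x ≤ height x + c ∧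
      height x ≤ A * Real.log X} ⊆ U0 ∪ ⋃ i ∈ Finset.range (n + 1), U i := by
    rintro x ⟨x0, x1, x2, x3, x4⟩
    rcases le_or_gt (height x) (M * Real.log X) with h | h
    · left
      refine ⟨x0, x1, ?_, x3⟩
      rw [hexp]
      exact Real.exp_le_exp.2 h
    · right
      have hL0 : 0 < Real.log X := by
        rcases hL.lt_or_eq with h5 | h5
        · exact h5
        · rw [← h5, mul_zero] at x4 h
          linarith
      have hr : rad x ≤ Real.log X := (Real.le_log_iff_exp_le hX0).2 x2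
      -- the index
      have hAx : height x ≤ (M + (n + 1) * η) * Real.log X := by
        have e : M + (n + 1) * η = A' := by
          rw [hη]
          field_simp
          ring
        rw [e]
        exact x4.trans (mul_le_mul_of_nonneg_right (le_max_left _ _) hL)
      have hex : ∃ i : ℕ, height x ≤ (M + (i + 1) * η) * Real.log X := ⟨n, hAx⟩
      have h6 := Nat.find_spec hex
      have h7 : Nat.find hex ≤ n := Nat.find_min' hex hAx
      have h8 : (M + (Nat.find hex : ℝ) * η) * Real.log X ≤ height x := by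
        rcases Nat.eq_zero_or_pos (Nat.find hex) with h9 | h9
        · rw [h9, Nat.cast_zero, zero_mul, add_zero]
          exact h.le
        · have h10 := Nat.find_min hex (m := Nat.find hex - 1) (by omega)
          rw [not_le] at h10
          have h11 : (((Nat.find hex - 1 : ℕ) : ℝ) + 1) = (Nat.find hex : ℝ) := by
            have : ((Nat.find hex - 1 + 1 : ℕ) : ℝ) = (Nat.find hex : ℝ) := by
              rw [Nat.sub_add_cancel h9]
            push_cast at this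
            exact this
          rw [h11] at h10
          exact h10.le
      refine Set.mem_biUnion (x := Nat.find hex)
        (Finset.mem_coe.2 (Finset.mem_range.2 (Nat.lt_succ_of_le h7))) ?_
      refine ⟨x0, x1, ?_, ?_⟩
      · rw [hexp]
        exact Real.exp_le_exp.2 h6
      · rw [add_zero]
        refine le_trans (mul_le_mul_of_nonneg_left hr ?_) h8
        exact le_trans hM0.le (ha _)
  have hfin : (U0 ∪ ⋃ i ∈ Finset.range (n + 1), U i).Finite :=
    h0.1.union ((Finset.range (n + 1)).finite_toSet.biUnion fun i _ => (hi i).1)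
  refine ⟨hfin.subset hsub, ?_⟩
  have hcard : (({x : K | x ≠ 0 ∧ x ≠ 1 ∧ Real.exp (rad x) ≤ X ∧ M * rad x ≤ height x + c ∧
      height x ≤ A * Real.log X}.ncard : ℕ) : ℝ) ≤
      (U0.ncard : ℝ) + ∑ i ∈ Finset.range (n + 1), ((U i).ncard : ℝ) := by
    have h1 := Set.ncard_le_ncard hsub hfin
    have h2 := Set.ncard_union_le U0 (⋃ i ∈ Finset.range (n + 1), U i)
    have h3 : (⋃ i ∈ Finset.range (n + 1), U i).ncard ≤
        ∑ i ∈ Finset.range (n + 1), (U i).ncard := Finset.set_ncard_biUnion_le _ _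
    have h4 := h1.trans (h2.trans (Nat.add_le_add_left h3 _))
    exact_mod_cast h4
  refine hcard.trans ?_
  rw [add_mul, Finset.sum_mul]
  have hFM := hE M le_rfl
  refine add_le_add ?_ (Finset.sum_le_sum fun i hin => ?_)
  · refine h0.2.trans (mul_le_mul_of_nonneg_left ?_ hC00)
    rw [← Real.rpow_mul hX0.le]
    refine Real.rpow_le_rpow_of_exponent_le hX ?_
    have h1 : M * (d * F (1 / M) + δ) = d * (M * F (1 / M)) + M * δ := by ring
    rw [h1]
    have h2 := mul_le_mul_of_nonneg_left hFM hd.le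
    have h3 := mul_le_mul_of_nonneg_right (le_max_right A M) hδ0.le
    rw [← hA'] at h3
    linarith
  · refine (hi i).2.trans (mul_le_mul_of_nonneg_left ?_ (hCf0 i))
    rw [← Real.rpow_mul hX0.le]
    refine Real.rpow_le_rpow_of_exponent_le hX ?_
    set a : ℝ := M + i * η with hadef
    have ea : M + ((i : ℝ) + 1) * η = a + η := by rw [hadef]; ring
    rw [ea]
    have haM : M ≤ a := ha i
    have hapos : 0 < a := lt_of_lt_of_le hM0 haM
    have h1 := hE a haM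
    have h2 : F (1 / a) ≤ 2 := F_le_two _ (by
      rw [div_le_iff₀ hapos]
      linarith)
    have h3 : a + η ≤ A' := by
      have hi1 : (i : ℝ) + 1 ≤ (n : ℝ) + 1 := by
        have := Finset.mem_range.1 hin
        exact_mod_cast this
      have h4 := mul_le_mul_of_nonneg_right hi1 hη0
      have e : M + ((n : ℝ) + 1) * η = A' := by
        rw [hη]
        field_simp
        ring
      rw [← ea]
      linarith
    have h4 : (a + η) * (d * F (1 / a) + δ) =
        d * (a * F (1 / a)) + d * (η * F (1 / a)) + (a + η) * δ := by ring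
    rw [h4]
    have h5 := mul_le_mul_of_nonneg_left h1 hd.le
    have h6 := mul_le_mul_of_nonneg_left (mul_le_mul_of_nonneg_left h2 hη0) hd.le
    have h7 := mul_le_mul_of_nonneg_right h3 hδ0.le
    linarith

lemma level_gt (a : ℝ) (ha : 1 ≤ a) : a * F (1 / a) ≤ 4 / 7 := by
  have ha0 : 0 < a := by linarith
  have h1 : 1 / a ≤ 1 := by rw [div_le_iff₀ ha0]; linarith
  unfold F
  rcases le_or_gt (1 / a) (7 / 15) with h | h
  · rw [if_pos h]
    apply le_of_eq
    field_simp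
  · rw [if_neg (not_le.2 h), if_pos h1]
    rw [lt_div_iff₀ ha0] at h
    have e : a * ((19 * (1 / a) + 1) / 37) = (19 + a) / 37 := by field_simp
    rw [e]
    linarith

lemma level_nt (a : ℝ) (ha : 2 / 5 ≤ a) : a * F (1 / a) ≤ 3 / 5 := by
  have ha0 : 0 < a := by linarith
  have e1 : a * (1 / a) = 1 := by field_simp
  set t := 1 / a with ht
  have ht0 : 0 < t := by positivity
  have ht1 : t ≤ 5 / 2 := by
    rw [ht, div_le_iff₀ ha0]
    linarith
  unfold F
  split_ifs with h1 h2 h3 h4 h5 h6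
  · nlinarith
  · nlinarith
  · nlinarith
  · nlinarith
  · nlinarith
  · nlinarith
  · nlinarith

/-! ## Counting by the radical, without condition on the height -/

theorem all_heights (K : Type) [Field K] [NumberField K]
    (S : Finset (HeightOneSpectrum (𝓞 K))) :
    ∃ C ν : ℝ, 0 < ν ∧ ∀ X : ℝ, 1 ≤ X →
      {x | x ∈ Nontrivial K S ∧ Real.exp (rad x) ≤ X}.Finite ∧
      ({x | x ∈ Nontrivial K S ∧ Real.exp (rad x) ≤ X}.ncard : ℝ) ≤
        C * X ^ ((2 / 3 : ℝ) * (Module.finrank ℚ K : ℝ) - ν) := by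
  classical
  set d : ℝ := (Module.finrank ℚ K : ℝ) with hdd
  have hd : 0 < d := by rw [hdd]; exact_mod_cast Module.finrank_pos
  obtain ⟨M, hM0, hM⟩ := rad_le S
  obtain ⟨-, -, htail, -⟩ := Pool.Agent.Results.MP_f5a5f7_nt.SharpCount.result K
  obtain ⟨c₂, hc₂, hup⟩ := Pool.Agent.Results.MP_f5a5f7_nt.SharpCount.upper K
  obtain ⟨D, ν, hν, hD⟩ := htail (1 / 4) (by norm_num) (by norm_num)
  -- exponents
  obtain ⟨μ, hμ⟩ : ∃ μ : ℝ, μ = min (min ν (d / 40)) (d / 3) := ⟨_, rfl⟩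
  have hμ0 : 0 < μ := by rw [hμ]; positivity
  have hμ1 : μ ≤ ν := by rw [hμ]; exact (min_le_left _ _).trans (min_le_left _ _)
  have hμ2 : μ ≤ d / 40 := by rw [hμ]; exact (min_le_left _ _).trans (min_le_right _ _)
  have hμ3 : μ ≤ d / 3 := by rw [hμ]; exact min_le_right _ _
  obtain ⟨P, hP⟩ : ∃ P : ℝ, P = Real.exp (1 / 4 * d * (6 / 5 * M)) := ⟨_, rfl⟩
  have hP0 : 0 < P := by rw [hP]; exact Real.exp_pos _
  refine ⟨c₂ + |D| * (P + 1) + c₂ * Real.exp (12 * M * d), μ, hμ0, fun X hX => ?_⟩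
  have hX0 : 0 < X := by linarith
  have hL : 0 ≤ Real.log X := Real.log_nonneg hX
  have hsub0 : {x | x ∈ Nontrivial K S ∧ Real.exp (rad x) ≤ X} ⊆
      Pool.Agent.Results.MP_f5a5f7_nt.SharpCount.Numbers K X := by
    rintro x ⟨⟨m, hm, hm2, hx⟩, hxX⟩
    exact ⟨hx.1, hx.2.1, hxX⟩
  have hfin : {x | x ∈ Nontrivial K S ∧ Real.exp (rad x) ≤ X}.Finite :=
    (hup X hX).1.subset hsub0
  refine ⟨hfin, ?_⟩
  have hXμ : ∀ t : ℝ, t ≤ (2 / 3 : ℝ) * d - μ → X ^ t ≤ X ^ ((2 / 3 : ℝ) * d - μ) := fun t ht =>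
    Real.rpow_le_rpow_of_exponent_le hX ht
  rcases le_or_gt (Real.log X) (12 * M) with hsmall | hlarge
  · -- small `X`
    have h1 : (({x | x ∈ Nontrivial K S ∧ Real.exp (rad x) ≤ X}.ncard : ℕ) : ℝ) ≤
        c₂ * X ^ ((2 / 3 : ℝ) * d) := by
      refine le_trans ?_ (hup X hX).2
      exact_mod_cast Set.ncard_le_ncard hsub0 (hup X hX).1
    have h2 : X ^ ((2 / 3 : ℝ) * d) ≤
        Real.exp (12 * M * d) * X ^ ((2 / 3 : ℝ) * d - μ) := by
      have e : X ^ ((2 / 3 : ℝ) * d) = X ^ μ * X ^ ((2 / 3 : ℝ) * d - μ) := by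
        rw [← Real.rpow_add hX0]
        congr 1
        ring
      rw [e]
      refine mul_le_mul_of_nonneg_right ?_ (Real.rpow_nonneg hX0.le _)
      rw [Real.rpow_def_of_pos hX0]
      refine Real.exp_le_exp.2 ?_
      have h3 : μ ≤ d := by linarith
      have h4 := mul_le_mul hsmall h3 hμ0.le (by positivity)
      linarith
    have h3 := mul_le_mul_of_nonneg_left h2 hc₂.le
    have h4 : 0 ≤ X ^ ((2 / 3 : ℝ) * d - μ) := Real.rpow_nonneg hX0.le _
    have h5 : 0 ≤ |D| * (P + 1) * X ^ ((2 / 3 : ℝ) * d - μ) := by positivity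
    have h6 : 0 ≤ c₂ * X ^ ((2 / 3 : ℝ) * d - μ) := by positivity
    have e7 : (c₂ + |D| * (P + 1) + c₂ * Real.exp (12 * M * d)) *
        X ^ ((2 / 3 : ℝ) * d - μ) = c₂ * X ^ ((2 / 3 : ℝ) * d - μ) +
          |D| * (P + 1) * X ^ ((2 / 3 : ℝ) * d - μ) +
          c₂ * (Real.exp (12 * M * d) * X ^ ((2 / 3 : ℝ) * d - μ)) := by ring
    rw [e7]
    linarith
  · -- large `X`
    set t : ℝ := Real.log X / 10 - 6 / 5 * M with ht
    have ht0 : 0 ≤ t := by rw [ht]; linarith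
    have hsub : {x | x ∈ Nontrivial K S ∧ Real.exp (rad x) ≤ X} ⊆
        Pool.Agent.Results.MP_f5a5f7_nt.SharpCount.Numbers K (X ^ (1 / 2 : ℝ)) ∪
        Pool.Agent.Results.MP_f5a5f7_nt.SharpCount.Exceptions K X t := by
      rintro x ⟨⟨m, hm, hm2, hx⟩, hxX⟩
      have hr : rad x ≤ Real.log X := (Real.le_log_iff_exp_le hX0).2 hxX
      obtain ⟨-, -, h1⟩ := hM (5 / 2) (by norm_num) (by norm_num) x
        ⟨m, hm, sum_le hm hm2, hx⟩
      rcases le_or_gt (rad x) (Real.log X / 2) with h | h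
      · left
        refine ⟨hx.1, hx.2.1, ?_⟩
        have e : X ^ (1 / 2 : ℝ) = Real.exp (Real.log X / 2) := by
          rw [Real.rpow_def_of_pos hX0]
          congr 1
          ring
        rw [e]
        exact Real.exp_le_exp.2 h
      · right
        refine ⟨hx.1, hx.2.1, hxX, ?_⟩
        show rad x + t ≤ 3 * height x
        rw [ht]
        linarith
    have hX12 : 1 ≤ X ^ (1 / 2 : ℝ) := Real.one_le_rpow hX (by norm_num)
    have f1 := hup (X ^ (1 / 2 : ℝ)) hX12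
    have f2 : (Pool.Agent.Results.MP_f5a5f7_nt.SharpCount.Exceptions K X t).Finite :=
      (hup X hX).1.subset fun x hx => ⟨hx.1, hx.2.1, hx.2.2.1⟩
    have h1 : (({x | x ∈ Nontrivial K S ∧ Real.exp (rad x) ≤ X}.ncard : ℕ) : ℝ) ≤
        ((Pool.Agent.Results.MP_f5a5f7_nt.SharpCount.Numbers K (X ^ (1 / 2 : ℝ))).ncard : ℝ) +
        ((Pool.Agent.Results.MP_f5a5f7_nt.SharpCount.Exceptions K X t).ncard : ℝ) := by
      have g1 := Set.ncard_le_ncard hsub (f1.1.union f2)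
      have g2 := g1.trans (Set.ncard_union_le _ _)
      exact_mod_cast g2
    have h2 : ((Pool.Agent.Results.MP_f5a5f7_nt.SharpCount.Numbers K
        (X ^ (1 / 2 : ℝ))).ncard : ℝ) ≤ c₂ * X ^ ((2 / 3 : ℝ) * d - μ) := by
      refine f1.2.trans (mul_le_mul_of_nonneg_left ?_ hc₂.le)
      rw [← Real.rpow_mul hX0.le]
      refine hXμ _ ?_
      linarith
    have h3 : ((Pool.Agent.Results.MP_f5a5f7_nt.SharpCount.Exceptions K X t).ncard : ℝ) ≤
        |D| * (P + 1) * X ^ ((2 / 3 : ℝ) * d - μ) := by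
      have g1 := hD X t hX ht0
      have g2 : Real.exp (-(1 / 4 * d * t)) = P * X ^ (-(d / 40)) := by
        rw [hP, Real.rpow_def_of_pos hX0, ← Real.exp_add]
        congr 1
        rw [ht]
        ring
      have g3 : 0 < X ^ ((2 / 3 : ℝ) * d) := Real.rpow_pos_of_pos hX0 _
      have g4 : 0 ≤ Real.exp (-(1 / 4 * d * t)) + X ^ (-ν) := by positivity
      have g5 : D * (Real.exp (-(1 / 4 * d * t)) + X ^ (-ν)) * X ^ ((2 / 3 : ℝ) * d) ≤
          |D| * ((Real.exp (-(1 / 4 * d * t)) + X ^ (-ν)) * X ^ ((2 / 3 : ℝ) * d)) := by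
        rw [mul_assoc]
        exact mul_le_mul_of_nonneg_right (le_abs_self D) (by positivity)
      have e8 : |D| * (P + 1) * X ^ ((2 / 3 : ℝ) * d - μ) =
          |D| * ((P + 1) * X ^ ((2 / 3 : ℝ) * d - μ)) := by ring
      rw [e8]
      refine g1.trans (g5.trans ?_)
      refine mul_le_mul_of_nonneg_left ?_ (abs_nonneg D)
      rw [g2, add_mul, mul_assoc, ← Real.rpow_add hX0, ← Real.rpow_add hX0, add_mul, one_mul]
      refine add_le_add (mul_le_mul_of_nonneg_left (hXμ _ (by linarith)) hP0.le)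
        (hXμ _ (by linarith))
    have h4 : 0 ≤ c₂ * Real.exp (12 * M * d) * X ^ ((2 / 3 : ℝ) * d - μ) := by positivity
    have e7 : (c₂ + |D| * (P + 1) + c₂ * Real.exp (12 * M * d)) *
        X ^ ((2 / 3 : ℝ) * d - μ) = c₂ * X ^ ((2 / 3 : ℝ) * d - μ) +
          |D| * (P + 1) * X ^ ((2 / 3 : ℝ) * d - μ) +
          c₂ * Real.exp (12 * M * d) * X ^ ((2 / 3 : ℝ) * d - μ) := by ring
    rw [e7]
    linarith

end pts

/-- **The integral points of all C-pairs on the line with support `{0, 1, ∞}` at once.** Let `K` be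
a number field of degree `d` and `S` a finite set of primes.

(1) For `0 < σ ≤ 3`, the `x ∈ K` of height `exp h(x) ≤ B` which are `S`-integral for some C-pair with
`1 / m_0 + 1 / m_1 + 1 / m_2 ≤ σ` are `O(B ^ (d F(σ) + ε))` in number.

(2) The `x ∈ K` of height at most `B` which are `S`-integral for some C-pair of general type are
`O(B ^ ((821 / 1554) d + ε))` in number.

(3) For all `A`, the `x` with radical `exp rad(x) ≤ X` and `h(x) ≤ A log X` which are `S`-integral for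
some C-pair of general type are `O(X ^ ((4 / 7) d + ε))` in number, and those which are `S`-integral
for some C-pair with `(m_0, m_1, m_2) ≠ (1, 1, 1)` are `O(X ^ ((3 / 5) d + ε))` in number.

(4) Whatever their height, the `x` with `exp rad(x) ≤ X` which are `S`-integral for some C-pair with
`(m_0, m_1, m_2) ≠ (1, 1, 1)` are `O(X ^ ((2 / 3) d - ν))` in number, for some `ν > 0`, whereas there
are at least `c₁ X ^ ((2 / 3) d)` numbers `x ∈ K`, `x ≠ 0, 1`, with `exp rad(x) ≤ X`, `c₁ > 0`. -/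
theorem result (K : Type) [Field K] [NumberField K] (S : Finset (HeightOneSpectrum (𝓞 K))) :
    (∀ σ ε : ℝ, 0 < σ → σ ≤ 3 → 0 < ε → ∃ C : ℝ, ∀ B : ℝ, 1 ≤ B →
      {x | x ∈ Campana K S σ ∧ Real.exp (height x) ≤ B}.Finite ∧
      ({x | x ∈ Campana K S σ ∧ Real.exp (height x) ≤ B}.ncard : ℝ) ≤
        C * B ^ ((Module.finrank ℚ K : ℝ) * F σ + ε)) ∧
    (∀ ε : ℝ, 0 < ε → ∃ C : ℝ, ∀ B : ℝ, 1 ≤ B →
      {x | x ∈ GeneralType K S ∧ Real.exp (height x) ≤ B}.Finite ∧
      ({x | x ∈ GeneralType K S ∧ Real.exp (height x) ≤ B}.ncard : ℝ) ≤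
        C * B ^ ((Module.finrank ℚ K : ℝ) * (821 / 1554) + ε)) ∧
    (∀ A ε : ℝ, 0 < ε → ∃ C : ℝ, ∀ X : ℝ, 1 ≤ X →
      ({x | x ∈ GeneralType K S ∧ Real.exp (rad x) ≤ X ∧
        height x ≤ A * Real.log X}.ncard : ℝ) ≤
        C * X ^ ((Module.finrank ℚ K : ℝ) * (4 / 7) + ε) ∧
      ({x | x ∈ Nontrivial K S ∧ Real.exp (rad x) ≤ X ∧
        height x ≤ A * Real.log X}.ncard : ℝ) ≤
        C * X ^ ((Module.finrank ℚ K : ℝ) * (3 / 5) + ε)) ∧
    (∃ C ν : ℝ, 0 < ν ∧ ∀ X : ℝ, 1 ≤ X →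
      {x | x ∈ Nontrivial K S ∧ Real.exp (rad x) ≤ X}.Finite ∧
      ({x | x ∈ Nontrivial K S ∧ Real.exp (rad x) ≤ X}.ncard : ℝ) ≤
        C * X ^ ((2 / 3 : ℝ) * (Module.finrank ℚ K : ℝ) - ν)) ∧
    (∃ c₁ X₀ : ℝ, 0 < c₁ ∧ ∀ X : ℝ, X₀ ≤ X →
      {x : K | x ≠ 0 ∧ x ≠ 1 ∧ Real.exp (rad x) ≤ X}.Finite ∧
      c₁ * X ^ ((2 / 3 : ℝ) * (Module.finrank ℚ K : ℝ)) ≤
        ({x : K | x ≠ 0 ∧ x ≠ 1 ∧ Real.exp (rad x) ≤ X}.ncard : ℝ)) := by
  obtain ⟨M, hM0, hM⟩ := rad_le S
  have hGT : GeneralType K S ⊆ Campana K S (41 / 42) := by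
    rintro x ⟨m, hm, hσ, hx⟩
    exact ⟨m, hm, hurwitz hm hσ, hx⟩
  refine ⟨fun σ ε h1 h2 h3 => by_height K S σ ε h1 h2 h3, fun ε hε => ?_, fun A ε hε => ?_,
    all_heights K S, ?_⟩
  · obtain ⟨C, hC⟩ := by_height K S (41 / 42) ε (by norm_num) (by norm_num) hε
    refine ⟨C, fun B hB => ?_⟩
    obtain ⟨h1, h2⟩ := hC B hB
    have hF : F (41 / 42) = 821 / 1554 := by
      unfold F
      norm_num
    rw [hF] at h2
    have hsub : {x | x ∈ GeneralType K S ∧ Real.exp (height x) ≤ B} ⊆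
        {x | x ∈ Campana K S (41 / 42) ∧ Real.exp (height x) ≤ B} :=
      fun x hx => ⟨hGT hx.1, hx.2⟩
    refine ⟨h1.subset hsub, le_trans ?_ h2⟩
    exact_mod_cast Set.ncard_le_ncard hsub h1
  · obtain ⟨C1, hC1⟩ := part K 1 M A (4 / 7) ε (by norm_num) hε level_gt
    obtain ⟨C2, hC2⟩ := part K (2 / 5) M A (3 / 5) ε (by norm_num) hε level_nt
    refine ⟨max C1 C2, fun X hX => ?_⟩
    have hX0 : 0 < X := by linarith
    obtain ⟨f1, g1⟩ := hC1 X hX
    obtain ⟨f2, g2⟩ := hC2 X hX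
    refine ⟨le_trans ?_ (g1.trans (mul_le_mul_of_nonneg_right (le_max_left _ _)
      (Real.rpow_nonneg hX0.le _))), le_trans ?_ (g2.trans
      (mul_le_mul_of_nonneg_right (le_max_right _ _) (Real.rpow_nonneg hX0.le _)))⟩
    · have hsub : {x | x ∈ GeneralType K S ∧ Real.exp (rad x) ≤ X ∧
          height x ≤ A * Real.log X} ⊆
          {x : K | x ≠ 0 ∧ x ≠ 1 ∧ Real.exp (rad x) ≤ X ∧ 1 * rad x ≤ height x + M ∧
            height x ≤ A * Real.log X} := by
        rintro x ⟨hx, hxX, hxA⟩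
        obtain ⟨a0, a1, a2⟩ := hM (41 / 42) (by norm_num) (by norm_num) x (hGT hx)
        have hh := height_nonneg x
        exact ⟨a0, a1, hxX, by linarith, hxA⟩
      exact_mod_cast Set.ncard_le_ncard hsub f1
    · have hsub : {x | x ∈ Nontrivial K S ∧ Real.exp (rad x) ≤ X ∧
          height x ≤ A * Real.log X} ⊆
          {x : K | x ≠ 0 ∧ x ≠ 1 ∧ Real.exp (rad x) ≤ X ∧ 2 / 5 * rad x ≤ height x + M ∧
            height x ≤ A * Real.log X} := by
        rintro x ⟨⟨m, hm, hm2, hx⟩, hxX, hxA⟩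
        obtain ⟨a0, a1, a2⟩ := hM (5 / 2) (by norm_num) (by norm_num) x
          ⟨m, hm, sum_le hm hm2, hx⟩
        exact ⟨a0, a1, hxX, by linarith, hxA⟩
      exact_mod_cast Set.ncard_le_ncard hsub f2
  · obtain ⟨c₂, hc₂, hup⟩ := Pool.Agent.Results.MP_f5a5f7_nt.SharpCount.upper K
    obtain ⟨c₁, X₀, hc₁, hlow⟩ := Pool.Agent.Results.MP_f5a5f7_nt.SharpCount.lower K
    exact ⟨c₁, max 1 X₀, hc₁, fun X hX => ⟨(hup X ((le_max_left _ _).trans hX)).1,
      hlow X ((le_max_right _ _).trans hX)⟩⟩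

end Pool.Agent.Results.MP_464c42_nt.AllPairsOnTheLine
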