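import Pool.Agent.R323.SE.K

/-!
# Campana points of C-pairs on the projective line: at most `d` outside few classes

Let `d ≥ 1`, `A ≥ 1` and `ε > 0`. For primitive polynomials `f` with integer coefficients of absolute
value at most `Y`, of degree `d`, consider the C-pair of the projective line and the divisor
`(1 - 1 / m) (D_f + ∞)`, where `D_f` is the reduced divisor of the zeros of `f`. There are `m`,
`δ > 0` and `C`, depending on `d`, `A` and `ε` only, such that for all but at most `C * Y ^ ε` classes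
of `f` under translations `f (x + b)`, `b ∈ ℚ`, at most `d` rational numbers of height at most `Y ^ A`
are Campana points of the pair outside some set of primes with product at most `Y ^ δ`. The number
`d` is optimal: for a positive proportion of `Y` classes there are `d` points which are Campana points
for every `m`.
-/

set_option autoImplicit false

namespace Pool.Agent.Results.MP_464c42_nt.CampanaFewClasses

/-- the value at `(a, b)` of the homogeneous form of degree `deg g` belonging to `g` -/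
def homValue (g : Polynomial ℤ) (a b : ℤ) : ℤ :=
  ∑ i ∈ Finset.range (g.natDegree + 1), g.coeff i * a ^ i * b ^ (g.natDegree - i)

/-- `x` is a Campana point, outside the primes in `T`, of the C-pair of the projective line and the
divisor `(1 - 1 / m) (D_f + ∞)`: `x` is not a zero of `f` and for each prime `p` not in `T` the
intersection multiplicity at `p` of `x` with each component of `D_f`, and with `∞`, is `0` or at
least `m`. The component belonging to an irreducible factor `g` of `f` has at `x = a / b` the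
intersection multiplicity `v_p (homValue g a b)`, the point `∞` has `v_p b`. -/
def IsCampanaPoint (f : Polynomial ℤ) (m : ℕ) (T : Finset ℕ) (x : ℚ) : Prop :=
  (∀ g : Polynomial ℤ, Irreducible g → g ∣ f → homValue g x.num x.den ≠ 0 ∧
    ∀ p : ℕ, p.Prime → p ∉ T → (p : ℤ) ∣ homValue g x.num x.den →
      (p : ℤ) ^ m ∣ homValue g x.num x.den) ∧
  ∀ p : ℕ, p.Prime → p ∉ T → p ∣ x.den → p ^ m ∣ x.den

/-- `g x = f (x + b)` for a rational number `b` -/
def TranslationEquivalent (f g : Polynomial ℤ) : Prop :=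
  ∃ b : ℚ, g.map (Int.castRingHom ℚ) =
    (f.map (Int.castRingHom ℚ)).comp (Polynomial.X + Polynomial.C b)

/-- For `d ≥ 1`, `A ≥ 1` and `ε > 0` there are `m`, `δ > 0` and `C` such that for all `Y ≥ 1` there are
at most `C * Y ^ ε` pairwise translation inequivalent primitive polynomials `f` of degree `d` with
integer coefficients of absolute value at most `Y` for which more than `d` rational numbers `x` of
height at most `Y ^ A` are Campana points, outside some set of primes with product at most `Y ^ δ`,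
of the C-pair of the projective line and the divisor `(1 - 1 / m) (D_f + ∞)`. On the other hand there
are at least `Y / K` pairwise translation inequivalent such `f` with `d` points which are Campana
points for all `m` (with `T = ∅`). -/
theorem result (d A : ℕ) (hd : 1 ≤ d) (hA : 1 ≤ A) (ε : ℝ) (hε : 0 < ε) :
    (∃ (m : ℕ) (δ C : ℝ), 0 < δ ∧ ∀ Y : ℕ, 1 ≤ Y → ∀ S : Finset (Polynomial ℤ),
      (∀ f ∈ S, f.natDegree = d ∧ f.IsPrimitive ∧ (∀ i, |f.coeff i| ≤ (Y : ℤ)) ∧
        ∃ P : Finset ℚ, d < P.card ∧ ∀ x ∈ P, |x.num| ≤ (Y : ℤ) ^ A ∧ (x.den : ℤ) ≤ (Y : ℤ) ^ A ∧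
          ∃ T : Finset ℕ, (∀ p ∈ T, p.Prime) ∧ ((∏ p ∈ T, p : ℕ) : ℝ) ≤ (Y : ℝ) ^ δ ∧
            IsCampanaPoint f m T x) →
      (∀ f ∈ S, ∀ g ∈ S, f ≠ g → ¬ TranslationEquivalent f g) →
      (S.card : ℝ) ≤ C * (Y : ℝ) ^ ε) ∧
    ∃ K : ℕ, 1 ≤ K ∧ ∀ Y : ℕ, 1 ≤ Y → ∃ S : Finset (Polynomial ℤ), Y / K ≤ S.card ∧
      (∀ f ∈ S, f.natDegree = d ∧ f.IsPrimitive ∧ (∀ i, |f.coeff i| ≤ (Y : ℤ)) ∧
        ∃ P : Finset ℚ, P.card = d ∧ ∀ x ∈ P, |x.num| ≤ (d : ℤ) ∧ x.den = 1 ∧
          ∀ m : ℕ, IsCampanaPoint f m ∅ x) ∧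
      ∀ f ∈ S, ∀ g ∈ S, f ≠ g → ¬ TranslationEquivalent f g := by
  constructor
  · obtain ⟨m, δ, C, hδ, h⟩ := Pool.Agent.R323.SE.elem_full d A hd hA ε hε
    refine ⟨m, δ, C, hδ, fun Y hY S hS hAff => h Y hY S ?_ hAff⟩
    intro f hf
    obtain ⟨h1, -, h2, P, hP, hP2⟩ := hS f hf
    refine ⟨h1, h2, P, hP, fun x hx => ?_⟩
    obtain ⟨h3, h4, T, hT, hTY, h5, h6⟩ := hP2 x hx
    have hf0 : f ≠ 0 := by
      rintro rfl
      rw [Polynomial.natDegree_zero] at h1
      omega
    have hb : (x.den : ℤ) ≠ 0 := by exact_mod_cast x.den_ne_zero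
    refine ⟨h3, h4, ?_, T, hT, hTY, fun p hp hpT hpd => ?_⟩
    · exact Pool.Agent.R323.SE.homValue_ne_zero x.num hb f hf0 fun g hg hgf => (h5 g hg hgf).1
    · rcases (hp.dvd_mul).1 hpd with h7 | h7
      · obtain ⟨g, hg, hgf, hpg⟩ := Pool.Agent.R323.SE.exists_factor hp x.num hb f hf0
          (Int.natCast_dvd.2 h7)
        have h8 := (h5 g hg hgf).2 p hp hpT hpg
        have h9 : (p : ℤ) ^ m ∣ Pool.Agent.R323.SE.homValue f x.num x.den :=
          h8.trans (Pool.Agent.R323.SE.homValue_dvd hf0 hgf x.num hb)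
        have h10 : ((p ^ m : ℕ) : ℤ) ∣ Pool.Agent.R323.SE.homValue f x.num x.den := by
          push_cast
          exact h9
        exact (Int.natCast_dvd.1 h10).mul_right _
      · exact (h6 p hp hpT h7).mul_left _
  · obtain ⟨K, hK, h⟩ := Pool.Agent.R323.SE.many_one d hd
    refine ⟨K, hK, fun Y hY => ?_⟩
    obtain ⟨S, hS1, hS2, hS3⟩ := h Y hY
    refine ⟨S, hS1, fun f hf => ?_, hS3⟩
    obtain ⟨h1, h2, h3, P, hP, hP2⟩ := hS2 f hf
    refine ⟨h1, h2, h3, P, hP, fun x hx => ?_⟩
    obtain ⟨h4, h5, h6⟩ := hP2 x hx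
    have hf0 : f ≠ 0 := by
      rintro rfl
      rw [Polynomial.natDegree_zero] at h1
      omega
    have hb : (x.den : ℤ) ≠ 0 := by exact_mod_cast x.den_ne_zero
    refine ⟨h4, h5, fun m => ⟨fun g hg hgf => ?_, fun p hp _ hpd => ?_⟩⟩
    · have h7 : homValue g x.num x.den ∣ 1 := by
        rw [← h6]
        exact Pool.Agent.R323.SE.homValue_dvd hf0 hgf x.num hb
      refine ⟨fun h0 => ?_, fun p hp _ hpd => ?_⟩
      · rw [h0] at h7
        exact absurd (zero_dvd_iff.1 h7) one_ne_zero
      · exact absurd (isUnit_of_dvd_one (hpd.trans h7))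
          (Nat.prime_iff_prime_int.1 hp).not_unit
    · rw [h5] at hpd
      exact absurd (Nat.dvd_one.1 hpd) hp.one_lt.ne'

end Pool.Agent.Results.MP_464c42_nt.CampanaFewClasses
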