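import Mathlib
import Pool.Agent.R343.LU7

set_option autoImplicit false

/-!
# Campana points with compressible digits

A word of letters is cut into `z` phrases (`LZ a N z`, Lempel and Ziv) if each phrase is a single
letter, or a (possibly empty) copy of a block that begins further to the left; the block may
overlap the phrase. For instance the word `u v ^ m w` has a number of phrases which does not depend
on `m`.

Let `X` be a projective variety over `ℚ` in projective `n`-space (the zero set of forms which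
generate a prime ideal), `B 1, …, B q` forms of positive degree which do not vanish on `X`, `D i`
the intersection of `X` with `B i = 0` and `m i` multiplicities in `ℕ ∪ {∞}`, at least one of them
`∞`. Suppose that the C-pair `(X, ∑ (1 - 1 / m i) D i)` is not covered by orbifold `𝔾_m`-curves
(`OrbUniruled`; a C-pair of general type is not expected to be). Let a finitely generated group `Γ`
of rational numbers (for instance the `S`-units), `p`, `τ`, exponents `e j ≥ m (τ j)`, bases and `z`
be given.

1. There is a proper closed subset `G = 0` of `X` such that there are only finitely many points `x`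
   of `X` outside `G = 0` and off the `D i`, given by primitive integral coordinates, such that
   `B i (x) = w i ∏_{τ j = i} y j ^ (e j)`, `w i` integers in `Γ`, `y j` integers, and the digits of
   each coordinate `x i` in base `b i` and of each `y j` in base `c j`, read upwards or downwards, form
   words with `z` phrases. (These are Campana points for the ring of `S`-integers.) There is no
   restriction on the lengths of the phrases and of their periods.

2. The height of the points `x` of `X` outside `G = 0`, with rational coordinates and rational `y j`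
   which are sums of `r` products `g y`, `g ∈ Γ`, `y` the value of a word with `z` phrases of
   integral letters of absolute value at most `B0`, of length `L`, `L log b ≤ M (1 + h(x))`, is bounded.

The proof: if no period of a phrase has a size between `δ' L` and `δ L`, then a product `D` of
numbers `b ^ π - 1` with `log D` at most a small multiple of `L` makes all `D x i` and `D y j` sums of
boundedly many powers of the bases with small coefficients; one of finitely many scales works. The
theorem on sparse Campana points (SparseCampanaPoints) is extended to points with such a common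
denominator of the coordinates and factors, which does not change the factorisations.
-/

namespace Pool.Agent.Results.MP_464c42_nt.LempelZivCampana

open Finset Pool.Agent.R343.LP Pool.Agent.R343.LT Pool.Agent.TH551.HA Height

/-- The result: (1) digits, (2) sums of products of elements of `Γ` and values of words. -/
theorem result :
    (∀ (n q p : ℕ) (FF : Finset (MvPolynomial (Fin (n + 1)) ℚ)),
      (∀ F ∈ FF, ∃ e, F.IsHomogeneous e) →
      (Ideal.span (FF : Set (MvPolynomial (Fin (n + 1)) ℚ))).IsPrime →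
      ∀ B : Fin q → MvPolynomial (Fin (n + 1)) ℚ,
      (∀ i, B i ∉ Ideal.span (FF : Set (MvPolynomial (Fin (n + 1)) ℚ)) ∧
        ∃ e, 1 ≤ e ∧ (B i).IsHomogeneous e) →
      ∀ m : Fin q → ℕ∞, (∃ i, m i = ⊤) →
      ¬ OrbUniruled (Ideal.span (FF : Set (MvPolynomial (Fin (n + 1)) ℚ))) B m →
      ∀ (τ : Fin p → Fin q) (e : Fin p → ℕ), (∀ j, m (τ j) ≤ (e j : ℕ∞)) → (∀ j, 1 ≤ e j) →
      ∀ Γ : Subgroup ℚˣ, Γ.FG → ∀ (b : Fin (n + 1) → ℕ) (c : Fin p → ℕ),
      (∀ i, 2 ≤ b i) → (∀ i, 2 ≤ c i) → ∀ z : ℕ,
      ∃ (G : MvPolynomial (Fin (n + 1)) ℚ) (C : ℝ), (∃ e, G.IsHomogeneous e) ∧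
        G ∉ Ideal.span (FF : Set (MvPolynomial (Fin (n + 1)) ℚ)) ∧
        ∀ (x : Fin (n + 1) → ℤ) (y : Fin p → ℤ) (w : Fin q → ℤ), Finset.univ.gcd x = 1 →
          (∀ i, LZDigits (b i) z (x i)) → (∀ j, LZDigits (c j) z (y j)) →
          (∀ i, ∃ g ∈ Γ, (w i : ℚ) = ((g : ℚˣ) : ℚ)) →
          (∀ F ∈ FF, MvPolynomial.aeval (fun i => (x i : ℚ)) F = 0) →
          (∀ i, MvPolynomial.aeval (fun i => (x i : ℚ)) (B i) =
            ((w i * ∏ j with τ j = i, y j ^ (e j) : ℤ) : ℚ)) →
          (∀ i, MvPolynomial.aeval (fun i => (x i : ℚ)) (B i) ≠ 0) →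
          MvPolynomial.aeval (fun i => (x i : ℚ)) G ≠ 0 → ∀ i, |(x i : ℝ)| ≤ C) ∧
    (∀ (n q p r : ℕ) (FF : Finset (MvPolynomial (Fin (n + 1)) ℚ)),
      (∀ F ∈ FF, ∃ e, F.IsHomogeneous e) →
      (Ideal.span (FF : Set (MvPolynomial (Fin (n + 1)) ℚ))).IsPrime →
      ∀ B : Fin q → MvPolynomial (Fin (n + 1)) ℚ,
      (∀ i, B i ∉ Ideal.span (FF : Set (MvPolynomial (Fin (n + 1)) ℚ)) ∧
        ∃ e, 1 ≤ e ∧ (B i).IsHomogeneous e) →
      ∀ m : Fin q → ℕ∞, (∃ i, m i = ⊤) →
      ¬ OrbUniruled (Ideal.span (FF : Set (MvPolynomial (Fin (n + 1)) ℚ))) B m →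
      ∀ (τ : Fin p → Fin q) (e : Fin p → ℕ), (∀ j, m (τ j) ≤ (e j : ℕ∞)) →
      ∀ Γ : Subgroup ℚˣ, Γ.FG → ∀ (b : Fin (n + 1) → Fin r → ℕ) (c : Fin p → Fin r → ℕ),
      (∀ i j, 2 ≤ b i j) → (∀ i j, 2 ≤ c i j) → ∀ (z : ℕ) (B0 : ℤ), 0 ≤ B0 → ∀ M : ℝ, 0 ≤ M →
      ∃ (G : MvPolynomial (Fin (n + 1)) ℚ) (C : ℝ), (∃ e, G.IsHomogeneous e) ∧
        G ∉ Ideal.span (FF : Set (MvPolynomial (Fin (n + 1)) ℚ)) ∧
        ∀ (x : Fin (n + 1) → ℚ) (y : Fin p → ℚ) (w : Fin q → ℚ),
          (∀ i, CompR Γ (b i) z B0 (M * (1 + logHeight x)) (x i)) →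
          (∀ j, CompR Γ (c j) z B0 (M * (1 + logHeight x)) (y j)) →
          (∀ i, ∃ g ∈ Γ, w i = ((g : ℚˣ) : ℚ)) →
          (∀ F ∈ FF, MvPolynomial.aeval x F = 0) →
          (∀ i, MvPolynomial.aeval x (B i) = w i * ∏ j with τ j = i, y j ^ (e j)) →
          MvPolynomial.aeval x G ≠ 0 → logHeight x ≤ C) :=
  ⟨fun n q p FF hhom hprime B hB m hm hnu τ e he he1 Γ hΓ b c hb hc z =>
      campanaDigits n q p FF hhom hprime B hB m hm hnu τ e he he1 Γ hΓ b c hb hc z,
    fun n q p r FF hhom hprime B hB m hm hnu τ e he Γ hΓ b c hb hc z B0 hB0 M hM =>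
      campanaLZ n q p r FF hhom hprime B hB m hm hnu τ e he Γ hΓ b c hb hc z B0 hB0 M hM⟩

end Pool.Agent.Results.MP_464c42_nt.LempelZivCampana
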