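import Mathlib
import Pool.Agent.R870.RO.Main

set_option autoImplicit false

/-!
# Campana points of random C-pairs of general type on projective spaces

Let `n ≥ 0`, let `d_1, …, d_s ≥ 0` and `m_1, …, m_s ∈ {1, 2, …} ∪ {∞}` with
`n + 1 < ∑ d_i (1 - 1 / m_i)` (the condition that the pair `(ℙ^n, ∑ (1 - 1 / m_i) D_i)`, `D_i` of
degree `d_i`, is of general type) and let `S` be a finite set of primes.

Among the systems `(F_1, …, F_s)` of forms of degrees `d_i` in `n + 1` variables with integer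
coefficients of absolute value at most `H` let `CamPoint` be the set of those for which the pair
`(ℙ^n, ∑ (1 - 1 / m_i) D_i)`, `D_i : F_i = 0`, has a Campana point over `ℤ[1/S]` of height at
most `B`, not on the `D_i`. We prove for all `H, B ≥ 1` that the proportion of these systems is at least

  `c H ^ (∑ 1 / m_i) (1 + log H) ^ (#S ninf) / H ^ s`

and at most a constant times the same function times

  `1 + B ^ (n + 1 + ∑ d_i / m_i) (1 + log B) ^ (#S ninf) / H ^ (∑ d_i)`,

`ninf` being the number of the `i` with `m_i = ∞`. As `n + 1 + ∑ d_i / m_i < ∑ d_i`, this is the exact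
order of magnitude for all `B` up to `H ^ θ` for each
`θ < ∑ d_i / (n + 1 + ∑ d_i / m_i)` — a number larger than `1`.
-/

namespace Pool.Agent.Results.MP_464c42_nt.RandomCPairs

open Pool.Agent.R870.RC

theorem result (n s : ℕ) (d : Fin s → ℕ) (m : Fin s → ℕ∞) (hm : ∀ i, 1 ≤ m i) (S : Finset ℕ)
    (hS : ∀ p ∈ S, p.Prime) (hd : (n : ℝ) + 1 < ∑ i, (d i : ℝ) * (1 - th (m i))) :
    ∃ c K : ℝ, 0 < c ∧ ∀ H B : ℕ, 1 ≤ H → 1 ≤ B →
      (Systems n d H).Finite ∧
      (Systems n d H).ncard = (2 * H + 1) ^ (∑ i, (n + d i).choose (d i)) ∧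
      c * ((H : ℝ) ^ (∑ i, th (m i)) * (1 + Real.log H) ^ (S.card * ninf m) / (H : ℝ) ^ s) *
        ((Systems n d H).ncard : ℝ) ≤ ((CamPoint n d m S H B).ncard : ℝ) ∧
      ((CamPoint n d m S H B).ncard : ℝ) ≤
        K * ((H : ℝ) ^ (∑ i, th (m i)) * (1 + Real.log H) ^ (S.card * ninf m) / (H : ℝ) ^ s) *
          (1 + (B : ℝ) ^ ((n : ℝ) + 1 + ∑ i, (d i : ℝ) * th (m i)) *
            (1 + Real.log B) ^ (S.card * ninf m) / (H : ℝ) ^ (∑ i, d i)) *
          ((Systems n d H).ncard : ℝ) :=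
  cpairs n s d m hm S hS hd

end Pool.Agent.Results.MP_464c42_nt.RandomCPairs
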